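import Pool.Agent.Lib_helper74.FPP.DCTb

/-! # Block DCT, part 3: the differential inequality of Duminil-Copin and Tassion -/

set_option autoImplicit false

open MeasureTheory ProbabilityTheory
open scoped BigOperators

namespace Pool.Agent.Lib_helper9.FPP

section Main

variable {d : ℕ}

open Classical in
/-- finite set of the edges touching `Λ` -/
noncomputable def touchSet (Λ : Finset (Fin d → ℤ)) : Finset (ZEdge d) :=
  (Λ ×ˢ (Finset.univ : Finset (Fin d))) ∪
    (Λ ×ˢ (Finset.univ : Finset (Fin d))).image (fun x => (x.1 - Pi.single x.2 1, x.2))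

theorem mem_touchSet {Λ : Finset (Fin d → ℤ)} {e : ZEdge d} :
    e ∈ touchSet Λ ↔ edgeTouch Λ e := by
  classical
  unfold touchSet edgeTouch
  rw [Finset.mem_union, Finset.mem_product, Finset.mem_image]
  constructor
  · rintro (h | ⟨x, hx, rfl⟩)
    · exact Or.inl h.1
    · right
      rw [Finset.mem_product] at hx
      show x.1 - Pi.single x.2 1 + Pi.single x.2 1 ∈ Λ
      rw [sub_add_cancel]
      exact hx.1
  · rintro (h | h)
    · exact Or.inl ⟨h, Finset.mem_univ _⟩
    · right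
      refine ⟨(e.1 + Pi.single e.2 1, e.2), ?_, ?_⟩
      · rw [Finset.mem_product]
        exact ⟨h, Finset.mem_univ _⟩
      · show (e.1 + Pi.single e.2 1 - Pi.single e.2 1, e.2) = e
        rw [add_sub_cancel_right]

theorem extc_mono {I : Finset (ZEdge d)} {ω ω' : I → Bool}
    (h : ∀ e, ω e = true → ω' e = true) : ∀ e, extc I ω e = true → extc I ω' e = true := by
  intro e he
  by_cases hI : e ∈ I
  · rw [extc_mem _ hI] at he ⊢
    exact h _ he
  · rw [extc_notMem _ hI] at he
    exact absurd he (by decide)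

theorem extc_congr {I : Finset (ZEdge d)} {ω ω' : I → Bool} {P : ZEdge d → Prop}
    (h : ∀ e : I, P e.1 → ω e = ω' e) : ∀ e, P e → extc I ω e = extc I ω' e := by
  intro e he
  by_cases hI : e ∈ I
  · rw [extc_mem _ hI, extc_mem _ hI]
    exact h ⟨e, hI⟩ he
  · rw [extc_notMem _ hI, extc_notMem _ hI]

/-- the event that the origin is joined to the complement -/
def evA (Λ : Finset (Fin d → ℤ)) : Set (touchSet Λ → Bool) :=
  {ω | Out Λ (extc (touchSet Λ) ω) 0}

/-- the event that the separating set is `S` -/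
def evS (Λ S : Finset (Fin d → ℤ)) : Set (touchSet Λ → Bool) :=
  {ω | IsSep Λ S (extc (touchSet Λ) ω)}

/-- connection inside `S` -/
def evC (Λ S : Finset (Fin d → ℤ)) (x : Fin d → ℤ) : Set (touchSet Λ → Bool) :=
  {ω | ConnIn (S : Set (Fin d → ℤ)) (extc (touchSet Λ) ω) 0 x}

theorem evA_inc (Λ : Finset (Fin d → ℤ)) (ω ω' : touchSet Λ → Bool)
    (h : ∀ e, ω e = true → ω' e = true) (hω : ω ∈ evA Λ) : ω' ∈ evA Λ :=
  Out.mono (extc_mono h) hω

theorem evC_inc (Λ S : Finset (Fin d → ℤ)) (x : Fin d → ℤ) (ω ω' : touchSet Λ → Bool)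
    (h : ∀ e, ω e = true → ω' e = true) (hω : ω ∈ evC Λ S x) : ω' ∈ evC Λ S x :=
  connIn_local (fun e _ => extc_mono h e) hω

theorem isSep_unique {Λ S S' : Finset (Fin d → ℤ)} {ω : ZEdge d → Bool} (h : IsSep Λ S ω)
    (h' : IsSep Λ S' ω) : S = S' := by
  ext z
  rw [h z, h' z]

theorem indep_SC (q : ℝ) (Λ S : Finset (Fin d → ℤ)) (x : Fin d → ℤ) :
    pr q (evC Λ S x ∩ evS Λ S) = pr q (evC Λ S x) * pr q (evS Λ S) := by
  apply pr_indep q (fun e : touchSet Λ => edgeIn S e.1)
  · intro ω ω' h hω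
    exact connIn_local (fun e he ho => by rw [← extc_congr h e he]; exact ho) hω
  · intro ω ω' h hω
    exact IsSep.local hω (extc_congr (P := fun e => ¬ edgeIn S e) h)

open Classical in
/-- pointwise lower bound for the number of pivotal edges -/
theorem count_piv (Λ : Finset (Fin d → ℤ)) (ω : touchSet Λ → Bool) :
    ∑ S ∈ Λ.powerset.filter (fun S => (0 : Fin d → ℤ) ∈ S), ∑ x ∈ S, ∑ s : Step d,
      (if x + stepVec s ∈ S then (0 : ℝ) else if ω ∈ evC Λ S x ∩ evS Λ S then 1 else 0) ≤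
    ∑ e : touchSet Λ, if ω ∈ {ω : touchSet Λ → Bool | ω e = false ∧
      Function.update ω e true ∈ evA Λ ∧ ω ∉ evA Λ} then (1 : ℝ) else 0 := by
  have hR : (0 : ℝ) ≤ ∑ e : touchSet Λ, if ω ∈ {ω : touchSet Λ → Bool | ω e = false ∧
      Function.update ω e true ∈ evA Λ ∧ ω ∉ evA Λ} then (1 : ℝ) else 0 :=
    Finset.sum_nonneg fun e _ => by split_ifs <;> norm_num
  by_cases hS : ∃ S, S ∈ Λ.powerset.filter (fun S => (0 : Fin d → ℤ) ∈ S) ∧ ω ∈ evS Λ S
  · obtain ⟨S, hSm, hSs⟩ := hS
    have hSm' := Finset.mem_filter.1 hSm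
    have hSL : S ⊆ Λ := Finset.mem_powerset.1 hSm'.1
    rw [Finset.sum_eq_single S]
    · -- the main term
      have h1 : ∑ x ∈ S, ∑ s : Step d, (if x + stepVec s ∈ S then (0 : ℝ) else
          if ω ∈ evC Λ S x ∩ evS Λ S then 1 else 0) =
          (((S ×ˢ (Finset.univ : Finset (Step d))).filter (fun z => z.1 + stepVec z.2 ∉ S ∧
            ω ∈ evC Λ S z.1 ∩ evS Λ S)).card : ℝ) := by
        rw [← Finset.sum_product', Finset.card_filter]
        push_cast
        refine Finset.sum_congr rfl fun z _ => ?_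
        by_cases h1 : z.1 + stepVec z.2 ∈ S
        · rw [if_pos h1, if_neg (fun h => h.1 h1)]
        · rw [if_neg h1]
          by_cases h2 : ω ∈ evC Λ S z.1 ∩ evS Λ S
          · rw [if_pos h2, if_pos ⟨h1, h2⟩]
          · rw [if_neg h2, if_neg (fun h => h2 h.2)]
      have h2 : (∑ e : touchSet Λ, if ω ∈ {ω : touchSet Λ → Bool | ω e = false ∧
          Function.update ω e true ∈ evA Λ ∧ ω ∉ evA Λ} then (1 : ℝ) else 0) =
          (((Finset.univ : Finset (touchSet Λ)).filter (fun e => ω ∈ {ω : touchSet Λ → Bool |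
            ω e = false ∧ Function.update ω e true ∈ evA Λ ∧ ω ∉ evA Λ})).card : ℝ) := by
        rw [Finset.card_filter]; push_cast; rfl
      rw [h1, h2]
      have htouch : ∀ z ∈ (S ×ˢ (Finset.univ : Finset (Step d))).filter
          (fun z => z.1 + stepVec z.2 ∉ S ∧ ω ∈ evC Λ S z.1 ∩ evS Λ S),
          zedgeOf z.1 z.2 ∈ touchSet Λ := by
        rintro ⟨x, ⟨i, b⟩⟩ hz
        rw [Finset.mem_filter, Finset.mem_product] at hz
        have hx : x ∈ Λ := hSL hz.1.1
        rw [mem_touchSet]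
        cases b
        · right
          show x + stepVec (i, false) + Pi.single i 1 ∈ Λ
          rw [stepVec_false, neg_add_cancel_right]
          exact hx
        · left
          exact hx
      obtain ⟨φ, hφ⟩ : ∃ φ : (Fin d → ℤ) × Step d → Option (touchSet Λ), ∀ z,
          φ z = if h : zedgeOf z.1 z.2 ∈ touchSet Λ then some ⟨zedgeOf z.1 z.2, h⟩ else none :=
        ⟨_, fun _ => rfl⟩
      have h3 : ((S ×ˢ (Finset.univ : Finset (Step d))).filter (fun z => z.1 + stepVec z.2 ∉ S ∧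
            ω ∈ evC Λ S z.1 ∩ evS Λ S)).card ≤
          (((Finset.univ : Finset (touchSet Λ)).filter (fun e => ω ∈ {ω : touchSet Λ → Bool |
            ω e = false ∧ Function.update ω e true ∈ evA Λ ∧ ω ∉ evA Λ})).image some).card := by
        refine Finset.card_le_card_of_injOn φ ?_ ?_
        · intro z hz
          have hz' := Finset.mem_coe.1 hz
          have ht := htouch z hz'
          rw [Finset.mem_filter, Finset.mem_product] at hz'
          apply Finset.mem_coe.2
          rw [hφ, dif_pos ht, Finset.mem_image]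
          refine ⟨⟨zedgeOf z.1 z.2, ht⟩, ?_, rfl⟩
          rw [Finset.mem_filter]
          refine ⟨Finset.mem_univ _, ?_⟩
          have hp := IsSep.piv (ω' := extc (touchSet Λ)
            (Function.update ω ⟨zedgeOf z.1 z.2, ht⟩ true)) hSs hz'.1.1 hz'.2.1 hz'.2.2.1
            (extc_mono (fun e he => by
              by_cases h : e = ⟨zedgeOf z.1 z.2, ht⟩
              · rw [h, Function.update_self]
              · rw [Function.update_of_ne h]; exact he))
            (by rw [extc_mem _ ht, Function.update_self])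
          refine ⟨?_, hp.2.1, hp.2.2⟩
          have := hp.1
          rwa [extc_mem _ ht] at this
        · intro z hz z' hz' heq
          have hz1 := Finset.mem_coe.1 hz
          have hz2 := Finset.mem_coe.1 hz'
          have ht := htouch z hz1
          have ht' := htouch z' hz2
          rw [Finset.mem_filter, Finset.mem_product] at hz1 hz2
          rw [hφ, hφ, dif_pos ht, dif_pos ht', Option.some.injEq, Subtype.mk.injEq] at heq
          have h4 := zedge_inj hz1.1.1 hz2.1.1 hz1.2.1 hz2.2.1 heq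
          exact Prod.ext h4.1 h4.2
      rw [Finset.card_image_of_injective _ (Option.some_injective _)] at h3
      exact_mod_cast h3
    · intro S' _ hne
      refine Finset.sum_eq_zero fun x _ => Finset.sum_eq_zero fun s _ => ?_
      split_ifs with h1 h2
      · rfl
      · exact absurd (isSep_unique h2.2 hSs) hne
      · rfl
    · intro h
      exact absurd hSm h
  · refine le_trans (le_of_eq ?_) hR
    refine Finset.sum_eq_zero fun S hS' => Finset.sum_eq_zero fun x _ =>
      Finset.sum_eq_zero fun s _ => ?_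
    split_ifs with h1 h2
    · rfl
    · exact absurd ⟨S, hS', h2.2⟩ hS
    · rfl

open Classical in
/-- the main inequality -/
theorem main_ineq (Λ : Finset (Fin d → ℤ)) (h0 : (0 : Fin d → ℤ) ∈ Λ) {q : ℝ} (hq0 : 0 ≤ q)
    (hq1 : q ≤ 1)
    (hψ : ∀ S ⊆ Λ, (0 : Fin d → ℤ) ∈ S → 1 ≤ ∑ x ∈ S, ∑ s : Step d,
      (if x + stepVec s ∈ S then 0 else pr q (evC Λ S x))) :
    1 - pr q (evA Λ) ≤ ∑ e : touchSet Λ, pr q {ω : touchSet Λ → Bool | ω e = false ∧
      Function.update ω e true ∈ evA Λ ∧ ω ∉ evA Λ} := by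
  have h1 : 1 - pr q (evA Λ) ≤
      ∑ S ∈ Λ.powerset.filter (fun S => (0 : Fin d → ℤ) ∈ S), pr q (evS Λ S) := by
    have h2 : 1 - pr q (evA Λ) = pr q (evA Λ)ᶜ := by
      have := pr_compl q (evA Λ)
      linarith
    rw [h2]
    unfold pr
    rw [Finset.sum_comm]
    refine Finset.sum_le_sum fun ω _ => ?_
    have hnn : ∀ S ∈ Λ.powerset.filter (fun S => (0 : Fin d → ℤ) ∈ S),
        0 ≤ (if ω ∈ evS Λ S then bw q ω else 0) := by
      intro S _
      split_ifs
      · exact bw_nonneg hq0 hq1 ω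
      · exact le_rfl
    by_cases hω : ω ∈ (evA Λ)ᶜ
    · rw [if_pos hω]
      have hsep : ω ∈ evS Λ (Λ.filter (fun z => ¬ Out Λ (extc (touchSet Λ) ω) z)) := by
        intro z
        rw [Finset.mem_filter]
      have hmem : Λ.filter (fun z => ¬ Out Λ (extc (touchSet Λ) ω) z) ∈
          Λ.powerset.filter (fun S => (0 : Fin d → ℤ) ∈ S) := by
        rw [Finset.mem_filter, Finset.mem_powerset, Finset.mem_filter]
        exact ⟨Finset.filter_subset _ _, h0, hω⟩
      have h3 := Finset.single_le_sum hnn hmem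
      rw [if_pos hsep] at h3
      exact h3
    · rw [if_neg hω]
      exact Finset.sum_nonneg hnn
  refine le_trans h1 ?_
  have h2 : ∑ S ∈ Λ.powerset.filter (fun S => (0 : Fin d → ℤ) ∈ S), pr q (evS Λ S) ≤
      ∑ S ∈ Λ.powerset.filter (fun S => (0 : Fin d → ℤ) ∈ S), ∑ x ∈ S, ∑ s : Step d,
        (if x + stepVec s ∈ S then (0 : ℝ) else pr q (evC Λ S x ∩ evS Λ S)) := by
    refine Finset.sum_le_sum fun S hS => ?_
    rw [Finset.mem_filter, Finset.mem_powerset] at hS
    have h3 := hψ S hS.1 hS.2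
    have h4 : ∑ x ∈ S, ∑ s : Step d,
        (if x + stepVec s ∈ S then (0 : ℝ) else pr q (evC Λ S x ∩ evS Λ S)) =
        (∑ x ∈ S, ∑ s : Step d, (if x + stepVec s ∈ S then 0 else pr q (evC Λ S x))) *
          pr q (evS Λ S) := by
      rw [Finset.sum_mul]
      refine Finset.sum_congr rfl fun x _ => ?_
      rw [Finset.sum_mul]
      refine Finset.sum_congr rfl fun s _ => ?_
      split_ifs
      · rw [zero_mul]
      · exact indep_SC q Λ S x
    rw [h4]
    have h5 := pr_nonneg hq0 hq1 (evS Λ S)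
    nlinarith
  refine le_trans h2 ?_
  have h3 : ∑ S ∈ Λ.powerset.filter (fun S => (0 : Fin d → ℤ) ∈ S), ∑ x ∈ S, ∑ s : Step d,
        (if x + stepVec s ∈ S then (0 : ℝ) else pr q (evC Λ S x ∩ evS Λ S)) =
      ∑ ω : touchSet Λ → Bool, bw q ω *
        ∑ S ∈ Λ.powerset.filter (fun S => (0 : Fin d → ℤ) ∈ S), ∑ x ∈ S, ∑ s : Step d,
      (if x + stepVec s ∈ S then (0 : ℝ) else if ω ∈ evC Λ S x ∩ evS Λ S then 1 else 0) := by
    simp_rw [Finset.mul_sum]
    refine Eq.symm (Eq.trans Finset.sum_comm ?_)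
    refine Finset.sum_congr rfl fun S _ => ?_
    refine Eq.trans Finset.sum_comm ?_
    refine Finset.sum_congr rfl fun x _ => ?_
    refine Eq.trans Finset.sum_comm ?_
    refine Finset.sum_congr rfl fun s _ => ?_
    split_ifs with h
    · simp
    · unfold pr
      refine Finset.sum_congr rfl fun ω _ => ?_
      split_ifs <;> simp
  have h4 : ∑ e : touchSet Λ, pr q {ω : touchSet Λ → Bool | ω e = false ∧
      Function.update ω e true ∈ evA Λ ∧ ω ∉ evA Λ} =
      ∑ ω : touchSet Λ → Bool, bw q ω * ∑ e : touchSet Λ,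
        if ω ∈ {ω : touchSet Λ → Bool | ω e = false ∧
      Function.update ω e true ∈ evA Λ ∧ ω ∉ evA Λ} then (1 : ℝ) else 0 := by
    unfold pr
    rw [Finset.sum_comm]
    refine Finset.sum_congr rfl fun ω _ => ?_
    rw [Finset.mul_sum]
    refine Finset.sum_congr rfl fun e _ => ?_
    split_ifs <;> simp
  rw [h3, h4]
  exact Finset.sum_le_sum fun ω _ =>
    mul_le_mul_of_nonneg_left (count_piv Λ ω) (bw_nonneg hq0 hq1 ω)

/-- lower bound for the connection probability -/
theorem conn_lower (Λ : Finset (Fin d → ℤ)) (h0 : (0 : Fin d → ℤ) ∈ Λ) {p p' : ℝ} (hp0 : 0 ≤ p)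
    (hpp : p ≤ p') (hp1 : p' ≤ 1)
    (hψ : ∀ S ⊆ Λ, (0 : Fin d → ℤ) ∈ S → 1 ≤ ∑ x ∈ S, ∑ s : Step d,
      (if x + stepVec s ∈ S then 0 else pr p (evC Λ S x))) :
    1 - Real.exp (p - p') ≤ pr p' (evA Λ) := by
  classical
  have hψ' : ∀ q, p ≤ q → q ≤ 1 → ∀ S ⊆ Λ, (0 : Fin d → ℤ) ∈ S → 1 ≤ ∑ x ∈ S, ∑ s : Step d,
      (if x + stepVec s ∈ S then 0 else pr q (evC Λ S x)) := by
    intro q hpq hq1 S hS h0S
    refine le_trans (hψ S hS h0S) (Finset.sum_le_sum fun x _ => Finset.sum_le_sum fun s _ => ?_)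
    split_ifs
    · exact le_rfl
    · exact pr_mono_param (evC Λ S x) (evC_inc Λ S x) ⟨hp0, by linarith⟩ ⟨by linarith, hq1⟩ hpq
  have hanti : AntitoneOn (fun q => (1 - pr q (evA Λ)) * Real.exp q) (Set.Icc p p') := by
    have hder : ∀ q, ∃ D, HasDerivAt (fun q => (1 - pr q (evA Λ)) * Real.exp q)
        ((-D) * Real.exp q + (1 - pr q (evA Λ)) * Real.exp q) q ∧
        (p ≤ q → q ≤ 1 → 1 - pr q (evA Λ) ≤ D) := by
      intro q
      obtain ⟨D, hD, hD0, hD1⟩ := russo (evA Λ) (evA_inc Λ) q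
      refine ⟨D, (hD.const_sub 1).mul (Real.hasDerivAt_exp q), fun hpq hq1 => ?_⟩
      have h1 := main_ineq Λ h0 (by linarith : 0 ≤ q) hq1 (hψ' q hpq hq1)
      rw [← hD1] at h1
      have h2 := hD0 (by linarith) hq1
      nlinarith
    refine antitoneOn_of_deriv_nonpos (convex_Icc p p') ?_ ?_ ?_
    · intro q _
      obtain ⟨D, hD, _⟩ := hder q
      exact hD.continuousAt.continuousWithinAt
    · intro q _
      obtain ⟨D, hD, _⟩ := hder q
      exact hD.differentiableAt.differentiableWithinAt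
    · intro q hq
      obtain ⟨D, hD, hD1⟩ := hder q
      rw [interior_Icc] at hq
      rw [hD.deriv]
      have h1 := hD1 hq.1.le (hq.2.le.trans hp1)
      have h2 := Real.exp_pos q
      nlinarith
  have h1 := hanti ⟨le_rfl, hpp⟩ ⟨hpp, le_rfl⟩ hpp
  simp only at h1
  have h2 : (1 - pr p (evA Λ)) * Real.exp p ≤ Real.exp p := by
    have h3 := pr_nonneg hp0 (hpp.trans hp1) (evA Λ)
    have h4 := Real.exp_pos p
    nlinarith
  have h3 : (1 - pr p' (evA Λ)) * Real.exp p' ≤ Real.exp (p - p') * Real.exp p' := by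
    rw [← Real.exp_add]
    have : p - p' + p' = p := by ring
    rw [this]
    exact h1.trans h2
  have h4 := le_of_mul_le_mul_right h3 (Real.exp_pos p')
  linarith

/-- boxes -/
noncomputable def boxN (d N : ℕ) : Finset (Fin d → ℤ) :=
  Fintype.piFinset (fun _ => Finset.Icc (-(N : ℤ)) N)

theorem mem_boxN {N : ℕ} {x : Fin d → ℤ} : x ∈ boxN d N ↔ ∀ i, (x i).natAbs ≤ N := by
  unfold boxN
  rw [Fintype.mem_piFinset]
  refine forall_congr' fun i => ?_
  rw [Finset.mem_Icc]
  omega

/-- DCT. -/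
theorem exists_phi_lt_one_proof (d : ℕ) [NeZero d] (p : unitInterval) (hp : (p : ℝ) < pc d) :
    ∃ S : Finset (Fin d → ℤ), 0 ∈ S ∧ phi p S < 1 := by
  classical
  by_contra hcon
  push Not at hcon
  -- a larger parameter with no percolation
  obtain ⟨p', ⟨hp'I, hp'0⟩, hpp'⟩ : ∃ p' ∈ {p : ℝ | ∃ h : p ∈ unitInterval,
      percMeasure d ⟨p, h⟩ {ω | (openCluster ω 0).Infinite} = 0}, (p : ℝ) < p' := by
    by_cases hne : {p : ℝ | ∃ h : p ∈ unitInterval,
      percMeasure d ⟨p, h⟩ {ω | (openCluster ω 0).Infinite} = 0}.Nonempty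
    · exact exists_lt_of_lt_csSup hne hp
    · rw [Set.not_nonempty_iff_eq_empty] at hne
      unfold pc at hp
      rw [hne, Real.sSup_empty] at hp
      exact absurd p.2.1 (not_le.2 hp)
  have hmeas : ∀ (r : unitInterval) (Λ : Finset (Fin d → ℤ)), (0 : Fin d → ℤ) ∈ Λ →
      MeasurableSet {ω : ZEdge d → Bool | Out Λ ω 0} ∧
        (percMeasure d r).real {ω : ZEdge d → Bool | Out Λ ω 0} = pr (r : ℝ) (evA Λ) := by
    intro r Λ h0
    exact perc_cyl r (touchSet Λ) {ω : ZEdge d → Bool | Out Λ ω 0}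
      (fun ω ω' h hω => out_local (fun e he => h e (mem_touchSet.2 he)) h0 hω)
  have hlow : ∀ Λ : Finset (Fin d → ℤ), (0 : Fin d → ℤ) ∈ Λ →
      1 - Real.exp ((p : ℝ) - p') ≤
        (percMeasure d ⟨p', hp'I⟩).real {ω : ZEdge d → Bool | Out Λ ω 0} := by
    intro Λ h0
    rw [(hmeas ⟨p', hp'I⟩ Λ h0).2]
    refine conn_lower Λ h0 p.2.1 hpp'.le hp'I.2 ?_
    intro S hS h0S
    have h1 := hcon S h0S
    have h2 : ∀ x, (percMeasure d p).real {ω | ConnIn (S : Set (Fin d → ℤ)) ω 0 x} =
        pr (p : ℝ) (evC Λ S x) := by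
      intro x
      refine (perc_cyl p (touchSet Λ) _ ?_).2
      intro ω ω' h hω
      refine connIn_local (fun e he ho => ?_) hω
      rw [← h e (mem_touchSet.2 (Or.inl (hS he.1)))]
      exact ho
    have h3 : phi p S = (p : ℝ) * ∑ x ∈ S, ∑ s : Step d,
        (if x + stepVec s ∈ S then 0 else pr (p : ℝ) (evC Λ S x)) := by
      unfold phi
      rw [Finset.mul_sum]
      refine Finset.sum_congr rfl fun x _ => ?_
      rw [Finset.mul_sum]
      refine Finset.sum_congr rfl fun s _ => ?_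
      split_ifs
      · rw [mul_zero]
      · rw [h2]
    rw [h3] at h1
    have h4 : 0 ≤ ∑ x ∈ S, ∑ s : Step d,
        (if x + stepVec s ∈ S then 0 else pr (p : ℝ) (evC Λ S x)) := by
      refine Finset.sum_nonneg fun x _ => Finset.sum_nonneg fun s _ => ?_
      split_ifs
      · exact le_rfl
      · exact pr_nonneg p.2.1 p.2.2 _
    have h5 := p.2.2
    nlinarith
  -- the limit
  have hc : 0 < 1 - Real.exp ((p : ℝ) - p') := by
    have : Real.exp ((p : ℝ) - p') < 1 := by
      rw [← Real.exp_zero]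
      exact Real.exp_lt_exp.2 (by linarith)
    linarith
  have h0N : ∀ N, (0 : Fin d → ℤ) ∈ boxN d N := fun N => mem_boxN.2 fun i => by simp
  have hsub : (⋂ N : ℕ, {ω : ZEdge d → Bool | Out (boxN d N) ω 0}) ⊆
      {ω | (openCluster ω 0).Infinite} := by
    intro ω hω hfin
    rw [Set.mem_iInter] at hω
    obtain ⟨N, hN⟩ := (hfin.image (fun y : Fin d → ℤ =>
      Finset.univ.sup fun i => (y i).natAbs)).bddAbove
    obtain ⟨y, hy, hr⟩ := hω N
    apply hy
    rw [mem_boxN]
    intro i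
    have h1 : (Finset.univ.sup fun i => (y i).natAbs) ≤ N :=
      hN (Set.mem_image_of_mem _ (show y ∈ openCluster ω 0 from hr))
    exact le_trans (Finset.le_sup (f := fun i => (y i).natAbs) (Finset.mem_univ i)) h1
  have hanti : Antitone (fun N : ℕ => {ω : ZEdge d → Bool | Out (boxN d N) ω 0}) := by
    intro N N' hNN ω hω
    obtain ⟨y, hy, hr⟩ := hω
    refine ⟨y, fun h => hy ?_, hr⟩
    rw [mem_boxN] at h ⊢
    exact fun i => (h i).trans hNN
  have hlim := tendsto_measure_iInter_atTop (μ := percMeasure d ⟨p', hp'I⟩)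
    (s := fun N : ℕ => {ω : ZEdge d → Bool | Out (boxN d N) ω 0})
    (fun N => (hmeas ⟨p', hp'I⟩ (boxN d N) (h0N N)).1.nullMeasurableSet) hanti
    ⟨0, by
      have : IsProbabilityMeasure (percMeasure d ⟨p', hp'I⟩) := by
        unfold percMeasure; infer_instance
      exact measure_ne_top _ _⟩
  have hge : ENNReal.ofReal (1 - Real.exp ((p : ℝ) - p')) ≤
      percMeasure d ⟨p', hp'I⟩ (⋂ N : ℕ, {ω : ZEdge d → Bool | Out (boxN d N) ω 0}) := by
    refine ge_of_tendsto' hlim fun N => ?_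
    have : IsProbabilityMeasure (percMeasure d ⟨p', hp'I⟩) := by
      unfold percMeasure; infer_instance
    have h1 := hlow (boxN d N) (h0N N)
    rw [measureReal_def] at h1
    exact ENNReal.ofReal_le_of_le_toReal h1
  have h1 := le_trans hge (measure_mono hsub)
  rw [hp'0] at h1
  have h2 := ENNReal.ofReal_pos.2 hc
  exact absurd h1 (not_le.2 h2)

end Main

end Pool.Agent.Lib_helper9.FPP
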