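import Pool.Agent.Lib_helper9.FPP.PercDefs

/-! # Block DCT, part 1: finite Bernoulli product measures, Russo, independence -/

set_option autoImplicit false

open MeasureTheory ProbabilityTheory
open scoped BigOperators

namespace Pool.Agent.Lib_helper9.FPP

section Fin

variable {I : Type} [Fintype I] [DecidableEq I]

open Classical in
/-- probability of an event for a finite Bernoulli product -/
noncomputable def pr (q : ℝ) (A : Set (I → Bool)) : ℝ :=
  ∑ ω : I → Bool, if ω ∈ A then bw q ω else 0

theorem bw_nonneg {q : ℝ} (h0 : 0 ≤ q) (h1 : q ≤ 1) (ω : I → Bool) : 0 ≤ bw q ω := by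
  unfold bw
  refine Finset.prod_nonneg fun e _ => ?_
  split_ifs
  · exact h0
  · linarith

theorem sum_bw (q : ℝ) : ∑ ω : I → Bool, bw q ω = 1 := by
  have h := Finset.prod_univ_sum (fun _ : I => (Finset.univ : Finset Bool))
    (fun _ b => if b = true then q else 1 - q)
  rw [Fintype.piFinset_univ] at h
  unfold bw
  rw [← h]
  refine Finset.prod_eq_one fun e _ => ?_
  rw [Fintype.sum_bool]
  simp

theorem pr_nonneg {q : ℝ} (h0 : 0 ≤ q) (h1 : q ≤ 1) (A : Set (I → Bool)) : 0 ≤ pr q A := by
  unfold pr
  refine Finset.sum_nonneg fun ω _ => ?_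
  split_ifs
  · exact bw_nonneg h0 h1 ω
  · exact le_rfl

theorem pr_compl (q : ℝ) (A : Set (I → Bool)) : pr q A + pr q Aᶜ = 1 := by
  unfold pr
  rw [← Finset.sum_add_distrib, ← sum_bw (I := I) q]
  refine Finset.sum_congr rfl fun ω _ => ?_
  by_cases h : ω ∈ A
  · rw [if_pos h, if_neg (fun h' => h' h), add_zero]
  · rw [if_neg h, if_pos (show ω ∈ Aᶜ from h), zero_add]

/-- split a sum according to one coordinate -/
theorem sum_split (e : I) (F : (I → Bool) → ℝ) :
    ∑ ω, F ω = ∑ ω ∈ (Finset.univ : Finset (I → Bool)).filter (fun ω => ω e = false),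
      (F ω + F (Function.update ω e true)) := by
  rw [Finset.sum_add_distrib, ← Finset.sum_filter_add_sum_filter_not Finset.univ
    (fun ω : I → Bool => ω e = false) F]
  congr 1
  refine Finset.sum_nbij' (fun ω => Function.update ω e false) (fun ω => Function.update ω e true)
    ?_ ?_ ?_ ?_ ?_
  · intro ω _
    rw [Finset.mem_filter]
    exact ⟨Finset.mem_univ _, Function.update_self _ _ _⟩
  · intro ω _
    rw [Finset.mem_filter, Function.update_self]
    exact ⟨Finset.mem_univ _, by decide⟩
  · intro ω hω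
    rw [Finset.mem_filter] at hω
    rw [Function.update_idem]
    have h : ω e = true := by simpa using hω.2
    rw [← h, Function.update_eq_self]
  · intro ω hω
    rw [Finset.mem_filter] at hω
    rw [Function.update_idem]
    conv_lhs => rw [← hω.2]
    rw [Function.update_eq_self]
  · intro ω hω
    rw [Finset.mem_filter] at hω
    have h : ω e = true := by simpa using hω.2
    rw [Function.update_idem]
    conv_rhs => rw [← h, Function.update_eq_self]

/-- product without one coordinate -/
noncomputable def bwe (q : ℝ) (e : I) (ω : I → Bool) : ℝ :=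
  ∏ e' ∈ Finset.univ.erase e, (if ω e' = true then q else 1 - q)

theorem bwe_nonneg {q : ℝ} (h0 : 0 ≤ q) (h1 : q ≤ 1) (e : I) (ω : I → Bool) :
    0 ≤ bwe q e ω := by
  unfold bwe
  refine Finset.prod_nonneg fun e _ => ?_
  split_ifs
  · exact h0
  · linarith

theorem bwe_update (q : ℝ) (e : I) (ω : I → Bool) (b : Bool) :
    bwe q e (Function.update ω e b) = bwe q e ω := by
  unfold bwe
  refine Finset.prod_congr rfl fun e' he' => ?_
  rw [Function.update_of_ne (Finset.ne_of_mem_erase he')]

theorem bw_eq_bwe {q : ℝ} {e : I} {ω : I → Bool} (h : ω e = false) :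
    bw q ω = (1 - q) * bwe q e ω := by
  unfold bw bwe
  rw [← Finset.mul_prod_erase Finset.univ (fun e' => if ω e' = true then q else 1 - q)
    (Finset.mem_univ e), h]
  simp

theorem hasDerivAt_bw (q : ℝ) (ω : I → Bool) :
    HasDerivAt (fun q => bw q ω) (∑ e, bwe q e ω * (if ω e = true then 1 else -1)) q := by
  unfold bw bwe
  have h := HasDerivAt.fun_finsetProd (u := (Finset.univ : Finset I))
    (f := fun e q => if ω e = true then q else 1 - q)
    (f' := fun e => if ω e = true then 1 else -1) (x := q) (by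
      intro e _
      by_cases h : ω e = true
      · simp only [h, if_true]
        exact hasDerivAt_id q
      · simp only [h]
        simpa using (hasDerivAt_id q).const_sub 1)
  simpa only [smul_eq_mul] using h

open Classical in
/-- Russo's formula -/
theorem russo (A : Set (I → Bool))
    (hA : ∀ ω ω' : I → Bool, (∀ e, ω e = true → ω' e = true) → ω ∈ A → ω' ∈ A) (q : ℝ) :
    ∃ D : ℝ, HasDerivAt (fun q => pr q A) D q ∧ (0 ≤ q → q ≤ 1 → 0 ≤ D) ∧
      (1 - q) * D = ∑ e, pr q {ω | ω e = false ∧ Function.update ω e true ∈ A ∧ ω ∉ A} := by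
  refine ⟨∑ e, ∑ ω : I → Bool, (if ω e = false ∧ Function.update ω e true ∈ A ∧ ω ∉ A then
    bwe q e ω else 0), ?_, ?_, ?_⟩
  · have h1 : HasDerivAt (fun q => pr q A) (∑ ω : I → Bool,
        (if ω ∈ A then ∑ e, bwe q e ω * (if ω e = true then 1 else -1) else 0)) q := by
      unfold pr
      refine HasDerivAt.fun_sum fun ω _ => ?_
      by_cases h : ω ∈ A
      · simp only [h, if_true]
        exact hasDerivAt_bw q ω
      · simp only [h, if_false]
        exact hasDerivAt_const q 0
    refine h1.congr_deriv ?_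
    have h2 : ∀ ω : I → Bool, (if ω ∈ A then ∑ e, bwe q e ω * (if ω e = true then 1 else -1)
        else 0) = ∑ e, (if ω ∈ A then bwe q e ω * (if ω e = true then (1 : ℝ) else -1) else 0) := by
      intro ω
      by_cases h : ω ∈ A
      · simp only [h, if_true]
      · simp only [h, if_false, Finset.sum_const_zero]
    rw [Finset.sum_congr rfl (fun ω _ => h2 ω), Finset.sum_comm]
    refine Finset.sum_congr rfl fun e _ => ?_
    rw [sum_split e, sum_split e]
    refine Finset.sum_congr rfl fun ω hω => ?_
    rw [Finset.mem_filter] at hω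
    have hω' := hω.2
    have hup : Function.update ω e true e = true := Function.update_self _ _ _
    have hinc : ω ∈ A → Function.update ω e true ∈ A := by
      refine hA ω _ fun e' he' => ?_
      by_cases h : e' = e
      · subst h; exact hup
      · rw [Function.update_of_ne h]; exact he'
    rw [bwe_update]
    simp only [hup, hω', if_true, true_and, Function.update_idem]
    by_cases h3 : Function.update ω e true ∈ A
    · by_cases h4 : ω ∈ A
      · simp [h3, h4]
      · simp [h3, h4]
    · have h4 : ω ∉ A := fun h => h3 (hinc h)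
      simp [h3, h4]
  · intro h0 h1
    refine Finset.sum_nonneg fun e _ => Finset.sum_nonneg fun ω _ => ?_
    split_ifs
    · exact bwe_nonneg h0 h1 e ω
    · exact le_rfl
  · rw [Finset.mul_sum]
    refine Finset.sum_congr rfl fun e _ => ?_
    unfold pr
    rw [Finset.mul_sum]
    refine Finset.sum_congr rfl fun ω _ => ?_
    by_cases h : ω e = false ∧ Function.update ω e true ∈ A ∧ ω ∉ A
    · rw [if_pos h, if_pos (show ω ∈ {ω | ω e = false ∧ Function.update ω e true ∈ A ∧ ω ∉ A}
        from h), bw_eq_bwe h.1]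
    · rw [if_neg h, if_neg (show ¬ ω ∈ {ω | ω e = false ∧ Function.update ω e true ∈ A ∧ ω ∉ A}
        from h), mul_zero]

/-- monotonicity in the parameter -/
theorem pr_mono_param (A : Set (I → Bool))
    (hA : ∀ ω ω' : I → Bool, (∀ e, ω e = true → ω' e = true) → ω ∈ A → ω' ∈ A) :
    MonotoneOn (fun q => pr q A) (Set.Icc 0 1) := by
  refine monotoneOn_of_deriv_nonneg (convex_Icc 0 1) ?_ ?_ ?_
  · intro q _
    obtain ⟨D, hD, _⟩ := russo A hA q
    exact hD.continuousAt.continuousWithinAt
  · intro q _
    obtain ⟨D, hD, _⟩ := russo A hA q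
    exact hD.differentiableAt.differentiableWithinAt
  · intro q hq
    obtain ⟨D, hD, hD0, _⟩ := russo A hA q
    rw [interior_Icc] at hq
    rw [hD.deriv]
    exact hD0 hq.1.le hq.2.le

/-- independence of events depending on disjoint sets of coordinates -/
theorem pr_indep (q : ℝ) (J : I → Prop) (B C : Set (I → Bool))
    (hB : ∀ ω ω' : I → Bool, (∀ i, J i → ω i = ω' i) → ω ∈ B → ω' ∈ B)
    (hC : ∀ ω ω' : I → Bool, (∀ i, ¬ J i → ω i = ω' i) → ω ∈ C → ω' ∈ C) :
    pr q (B ∩ C) = pr q B * pr q C := by
  classical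
  obtain ⟨mix, hmix⟩ : ∃ mix : (I → Bool) → (I → Bool) → (I → Bool),
      ∀ a b i, mix a b i = if J i then a i else b i := ⟨fun a b i => if J i then a i else b i,
        fun _ _ _ => rfl⟩
  have hmm : ∀ a b, mix (mix a b) (mix b a) = a := by
    intro a b
    funext i
    rw [hmix, hmix, hmix]
    split_ifs <;> rfl
  have hbw : ∀ a b, bw q (mix a b) * bw q (mix b a) = bw q a * bw q b := by
    intro a b
    unfold bw
    rw [← Finset.prod_mul_distrib, ← Finset.prod_mul_distrib]
    refine Finset.prod_congr rfl fun i _ => ?_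
    rw [hmix, hmix]
    by_cases h : J i
    · simp only [h, if_true]
    · simp only [h, if_false]
      ring
  have h1 : pr q B * pr q C = ∑ x : (I → Bool) × (I → Bool),
      (if x.1 ∈ B ∧ x.2 ∈ C then bw q x.1 * bw q x.2 else 0) := by
    unfold pr
    rw [Finset.sum_mul_sum, ← Finset.univ_product_univ, Finset.sum_product]
    refine Finset.sum_congr rfl fun a _ => Finset.sum_congr rfl fun b _ => ?_
    by_cases ha : a ∈ B <;> by_cases hb : b ∈ C <;> simp [ha, hb]
  have h2 : pr q (B ∩ C) = ∑ x : (I → Bool) × (I → Bool),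
      (if x.1 ∈ B ∧ x.1 ∈ C then bw q x.1 * bw q x.2 else 0) := by
    unfold pr
    rw [← Finset.univ_product_univ, Finset.sum_product]
    refine Finset.sum_congr rfl fun a _ => ?_
    by_cases ha : a ∈ B ∩ C
    · rw [if_pos ha]
      have ha' : a ∈ B ∧ a ∈ C := ha
      simp only [ha', and_self, if_true]
      rw [← Finset.mul_sum, sum_bw, mul_one]
    · rw [if_neg ha]
      have ha' : ¬ (a ∈ B ∧ a ∈ C) := ha
      simp only [ha', if_false, Finset.sum_const_zero]
  rw [h1, h2]
  refine Finset.sum_nbij' (fun x => (mix x.1 x.2, mix x.2 x.1))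
    (fun x => (mix x.1 x.2, mix x.2 x.1)) (fun _ _ => Finset.mem_univ _)
    (fun _ _ => Finset.mem_univ _) ?_ ?_ ?_
  · intro x _
    exact Prod.ext (hmm x.1 x.2) (hmm x.2 x.1)
  · intro x _
    exact Prod.ext (hmm x.1 x.2) (hmm x.2 x.1)
  · intro x _
    have e1 : x.1 ∈ B ↔ mix x.1 x.2 ∈ B := by
      constructor
      · exact hB _ _ fun i hi => by rw [hmix, if_pos hi]
      · exact hB _ _ fun i hi => by rw [hmix, if_pos hi]
    have e2 : x.1 ∈ C ↔ mix x.2 x.1 ∈ C := by
      constructor
      · exact hC _ _ fun i hi => by rw [hmix, if_neg hi]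
      · exact hC _ _ fun i hi => by rw [hmix, if_neg hi]
    show (if x.1 ∈ B ∧ x.1 ∈ C then bw q x.1 * bw q x.2 else 0) =
      (if mix x.1 x.2 ∈ B ∧ mix x.2 x.1 ∈ C then bw q (mix x.1 x.2) * bw q (mix x.2 x.1) else 0)
    rw [hbw]
    by_cases h : x.1 ∈ B ∧ x.1 ∈ C
    · rw [if_pos h, if_pos ⟨e1.1 h.1, e2.1 h.2⟩]
    · rw [if_neg h, if_neg (fun h' => h ⟨e1.2 h'.1, e2.2 h'.2⟩)]

end Fin

end Pool.Agent.Lib_helper9.FPP
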