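import Pool.Agent.Lib_helper74.FPP.DCTa

/-! # Block DCT, part 2: cylinder events, connectivity -/

set_option autoImplicit false

open MeasureTheory ProbabilityTheory
open scoped BigOperators

namespace Pool.Agent.Lib_helper9.FPP

section Bridge

variable {d : ℕ}

open Classical in
/-- extension of a finite configuration by closed edges -/
noncomputable def extc (I : Finset (ZEdge d)) (ω : I → Bool) : ZEdge d → Bool :=
  fun e => if h : e ∈ I then ω ⟨e, h⟩ else false

theorem extc_mem {I : Finset (ZEdge d)} (ω : I → Bool) {e : ZEdge d} (h : e ∈ I) :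
    extc I ω e = ω ⟨e, h⟩ := by
  unfold extc
  rw [dif_pos h]

theorem extc_notMem {I : Finset (ZEdge d)} (ω : I → Bool) {e : ZEdge d} (h : e ∉ I) :
    extc I ω e = false := by
  unfold extc
  rw [dif_neg h]

theorem bern_singleton (p : unitInterval) (b : Bool) :
    (bern p).real {b} = if b = true then (p : ℝ) else 1 - (p : ℝ) := by
  have h0 : 0 ≤ (p : ℝ) := p.2.1
  have h1 : 0 ≤ 1 - (p : ℝ) := sub_nonneg.2 p.2.2
  rw [measureReal_def, bern, Measure.add_apply, Measure.smul_apply, Measure.smul_apply,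
    Measure.dirac_apply, Measure.dirac_apply]
  cases b
  · simp [ENNReal.toReal_ofReal h1]
  · simp [ENNReal.toReal_ofReal h0]

theorem pi_bern {I : Type} [Fintype I] [DecidableEq I] (p : unitInterval) (A : Set (I → Bool)) :
    (Measure.pi (fun _ : I => bern p)).real A = pr (p : ℝ) A := by
  classical
  have h1 : A = ((Finset.univ.filter (fun ω => ω ∈ A) : Finset (I → Bool)) : Set (I → Bool)) := by
    ext ω; simp
  conv_lhs => rw [h1]
  rw [← sum_measureReal_singleton, Finset.sum_filter]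
  unfold pr
  refine Finset.sum_congr rfl fun ω _ => ?_
  split_ifs with h
  · rw [measureReal_def, Measure.pi_singleton, ENNReal.toReal_prod]
    unfold bw
    refine Finset.prod_congr rfl fun i _ => ?_
    rw [← measureReal_def, bern_singleton]
  · rfl

/-- events depending on finitely many edges -/
theorem perc_cyl (p : unitInterval) (I : Finset (ZEdge d)) (A : Set (ZEdge d → Bool))
    (hA : ∀ ω ω' : ZEdge d → Bool, (∀ e ∈ I, ω e = ω' e) → ω ∈ A → ω' ∈ A) :
    MeasurableSet A ∧ (percMeasure d p).real A = pr (p : ℝ) {ω : I → Bool | extc I ω ∈ A} := by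
  have h1 : A = I.restrict ⁻¹' {ω : I → Bool | extc I ω ∈ A} := by
    ext ω
    show ω ∈ A ↔ extc I (I.restrict ω) ∈ A
    have h2 : ∀ e ∈ I, extc I (I.restrict ω) e = ω e := by
      intro e he
      rw [extc_mem _ he]
      rfl
    exact ⟨hA _ _ fun e he => (h2 e he).symm, hA _ _ h2⟩
  have hm : MeasurableSet {ω : I → Bool | extc I ω ∈ A} := (Set.toFinite _).measurableSet
  have hr : Measurable (I.restrict (π := fun _ : ZEdge d => Bool)) := Finset.measurable_restrict I
  refine ⟨by rw [h1]; exact hr hm, ?_⟩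
  conv_lhs => rw [h1]
  rw [← map_measureReal_apply hr hm]
  unfold percMeasure
  rw [Measure.infinitePi_map_restrict, pi_bern]

end Bridge

section Comb

variable {d : ℕ}

/-- edges with both end points in `S` -/
def edgeIn (S : Finset (Fin d → ℤ)) (e : ZEdge d) : Prop := e.1 ∈ S ∧ e.1 + Pi.single e.2 1 ∈ S

theorem stepVec_true (i : Fin d) : stepVec ((i, true) : Step d) = Pi.single i 1 := rfl

theorem stepVec_false (i : Fin d) : stepVec ((i, false) : Step d) = -Pi.single i 1 := by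
  show (Pi.single i (-1) : Fin d → ℤ) = _
  rw [Pi.single_neg]

theorem rtg_mono {α : Type*} {r p : α → α → Prop} (h : ∀ a b, r a b → p a b) {x y : α}
    (hxy : Relation.ReflTransGen r x y) : Relation.ReflTransGen p x y := by
  induction hxy with
  | refl => exact Relation.ReflTransGen.refl
  | tail _ hs ih => exact ih.tail (h _ _ hs)

/-- adjacency through a step -/
theorem openAdj_iff {ω : ZEdge d → Bool} {x y : Fin d → ℤ} :
    OpenAdj ω x y ↔ ∃ s : Step d, y = x + stepVec s ∧ ω (zedgeOf x s) = true := by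
  constructor
  · rintro ⟨i, (⟨h1, h2⟩ | ⟨h1, h2⟩)⟩
    · exact ⟨(i, true), h1, h2⟩
    · refine ⟨(i, false), ?_, ?_⟩
      · rw [stepVec_false, h1, add_neg_cancel_right]
      · show ω (x + stepVec (i, false), i) = true
        rw [stepVec_false, h1, add_neg_cancel_right]
        exact h2
  · rintro ⟨⟨i, b⟩, h1, h2⟩
    refine ⟨i, ?_⟩
    cases b
    · right
      have h3 : x = y + Pi.single i 1 := by rw [h1, stepVec_false, neg_add_cancel_right]
      refine ⟨h3, ?_⟩
      rw [h1]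
      exact h2
    · left
      exact ⟨h1, h2⟩

theorem OpenAdj.symm {ω : ZEdge d → Bool} {x y : Fin d → ℤ} (h : OpenAdj ω x y) :
    OpenAdj ω y x := by
  obtain ⟨i, h | h⟩ := h
  · exact ⟨i, Or.inr h⟩
  · exact ⟨i, Or.inl h⟩

/-- transfer of adjacency between configurations -/
theorem OpenAdj.congr {ω ω' : ZEdge d → Bool} {x y : Fin d → ℤ} (h : OpenAdj ω x y)
    (P : ZEdge d → Prop) (hP : ∀ e, P e → ω e = true → ω' e = true)
    (h1 : ∀ i, y = x + Pi.single i 1 → P (x, i)) (h2 : ∀ i, x = y + Pi.single i 1 → P (y, i)) :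
    OpenAdj ω' x y := by
  obtain ⟨i, h | h⟩ := h
  · exact ⟨i, Or.inl ⟨h.1, hP _ (h1 i h.1) h.2⟩⟩
  · exact ⟨i, Or.inr ⟨h.1, hP _ (h2 i h.1) h.2⟩⟩

/-- `z` is joined to the complement of `Λ` -/
def Out (Λ : Finset (Fin d → ℤ)) (ω : ZEdge d → Bool) (z : Fin d → ℤ) : Prop :=
  ∃ y, y ∉ Λ ∧ Relation.ReflTransGen (OpenAdj ω) z y

theorem reach_mono {ω ω' : ZEdge d → Bool} (h : ∀ e, ω e = true → ω' e = true)
    {x y : Fin d → ℤ} (hxy : Relation.ReflTransGen (OpenAdj ω) x y) :
    Relation.ReflTransGen (OpenAdj ω') x y :=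
  rtg_mono (fun _ _ hab => hab.congr (fun _ => True) (fun e _ => h e)
    (fun _ _ => trivial) (fun _ _ => trivial)) hxy

theorem Out.mono {Λ : Finset (Fin d → ℤ)} {ω ω' : ZEdge d → Bool}
    (h : ∀ e, ω e = true → ω' e = true) {z : Fin d → ℤ} (hz : Out Λ ω z) : Out Λ ω' z := by
  obtain ⟨y, hy, hr⟩ := hz
  exact ⟨y, hy, reach_mono h hr⟩

theorem Out.step {Λ : Finset (Fin d → ℤ)} {ω : ZEdge d → Bool} {x y : Fin d → ℤ}
    (h : OpenAdj ω x y) (hy : Out Λ ω y) : Out Λ ω x := by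
  obtain ⟨w, hw, hr⟩ := hy
  exact ⟨w, hw, Relation.ReflTransGen.head h hr⟩

/-- edges touching `Λ` -/
def edgeTouch (Λ : Finset (Fin d → ℤ)) (e : ZEdge d) : Prop :=
  e.1 ∈ Λ ∨ e.1 + Pi.single e.2 1 ∈ Λ

theorem out_local {Λ : Finset (Fin d → ℤ)} {ω ω' : ZEdge d → Bool}
    (h : ∀ e, edgeTouch Λ e → ω e = ω' e) {z : Fin d → ℤ} (hz : z ∈ Λ) (ho : Out Λ ω z) :
    Out Λ ω' z := by
  obtain ⟨y, hy, hr⟩ := ho
  have key : ∀ w, Relation.ReflTransGen (OpenAdj ω) z w →
      (w ∈ Λ ∧ Relation.ReflTransGen (OpenAdj ω') z w) ∨ Out Λ ω' z := by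
    intro w hw
    induction hw with
    | refl => exact Or.inl ⟨hz, Relation.ReflTransGen.refl⟩
    | @tail a b _ hstep ih =>
      rcases ih with ⟨ha, hra⟩ | ih
      · have hab : OpenAdj ω' a b := hstep.congr (edgeTouch Λ)
          (fun e he ho => by rw [← h e he]; exact ho)
          (fun i _ => Or.inl ha)
          (fun i hi => Or.inr (by show b + Pi.single i 1 ∈ Λ; rw [← hi]; exact ha))
        by_cases hb : b ∈ Λ
        · exact Or.inl ⟨hb, hra.tail hab⟩
        · exact Or.inr ⟨b, hb, hra.tail hab⟩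
      · exact Or.inr ih
  rcases key y hr with h1 | h1
  · exact absurd h1.1 hy
  · exact h1

/-- `ConnIn` depends on the edges inside `S` -/
theorem connIn_local {S : Finset (Fin d → ℤ)} {ω ω' : ZEdge d → Bool}
    (h : ∀ e, edgeIn S e → ω e = true → ω' e = true) {x y : Fin d → ℤ}
    (hc : ConnIn (S : Set (Fin d → ℤ)) ω x y) : ConnIn (S : Set (Fin d → ℤ)) ω' x y := by
  obtain ⟨hx, hy, hr⟩ := hc
  refine ⟨hx, hy, rtg_mono ?_ hr⟩
  rintro a b ⟨ha, hb, hab⟩
  refine ⟨ha, hb, hab.congr (edgeIn S) h ?_ ?_⟩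
  · intro i hi
    exact ⟨ha, by show a + Pi.single i 1 ∈ S; rw [← hi]; exact hb⟩
  · intro i hi
    exact ⟨hb, by show b + Pi.single i 1 ∈ S; rw [← hi]; exact ha⟩

/-- the set of points of `Λ` not joined to the complement is `S` -/
def IsSep (Λ S : Finset (Fin d → ℤ)) (ω : ZEdge d → Bool) : Prop :=
  ∀ z, z ∈ S ↔ z ∈ Λ ∧ ¬ Out Λ ω z

theorem IsSep.noedge {Λ S : Finset (Fin d → ℤ)} {ω : ZEdge d → Bool} (h : IsSep Λ S ω)
    {x y : Fin d → ℤ} (hx : x ∈ S) (hy : y ∉ S) : ¬ OpenAdj ω x y := by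
  intro hadj
  have hx' := (h x).1 hx
  apply hx'.2
  by_cases hyL : y ∈ Λ
  · have hyo : Out Λ ω y := by
      by_contra hcon
      exact hy ((h y).2 ⟨hyL, hcon⟩)
    exact hyo.step hadj
  · exact ⟨y, hyL, Relation.ReflTransGen.single hadj⟩

theorem IsSep.local {Λ S : Finset (Fin d → ℤ)} {ω ω' : ZEdge d → Bool} (h : IsSep Λ S ω)
    (heq : ∀ e, ¬ edgeIn S e → ω e = ω' e) : IsSep Λ S ω' := by
  -- transfer of edges not inside `S`
  have htr : ∀ (ω₁ ω₂ : ZEdge d → Bool), (∀ e, ¬ edgeIn S e → ω₁ e = ω₂ e) →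
      ∀ x y, (x ∉ S ∨ y ∉ S) → OpenAdj ω₁ x y → OpenAdj ω₂ x y := by
    intro ω₁ ω₂ h12 x y hxy hadj
    refine hadj.congr (fun e => ¬ edgeIn S e) (fun e he ho => by rw [← h12 e he]; exact ho) ?_ ?_
    · rintro i hi ⟨h1, h2⟩
      change x ∈ S at h1
      change x + Pi.single i 1 ∈ S at h2
      rw [← hi] at h2
      rcases hxy with h3 | h3
      · exact h3 h1
      · exact h3 h2
    · rintro i hi ⟨h1, h2⟩
      change y ∈ S at h1
      change y + Pi.single i 1 ∈ S at h2
      rw [← hi] at h2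
      rcases hxy with h3 | h3
      · exact h3 h2
      · exact h3 h1
  have hno' : ∀ x y, x ∈ S → y ∉ S → ¬ OpenAdj ω' x y := by
    intro x y hx hy hadj
    exact h.noedge hx hy (htr ω' ω (fun e he => (heq e he).symm) x y (Or.inr hy) hadj)
  intro z
  constructor
  · intro hz
    refine ⟨((h z).1 hz).1, ?_⟩
    rintro ⟨y, hy, hr⟩
    have hstay : ∀ w, Relation.ReflTransGen (OpenAdj ω') z w → w ∈ S := by
      intro w hw
      induction hw with
      | refl => exact hz
      | tail _ hstep ih =>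
        by_contra hcon
        exact hno' _ _ ih hcon hstep
    exact hy ((h y).1 (hstay y hr)).1
  · rintro ⟨hzL, hzo⟩
    by_contra hzS
    apply hzo
    have hzo' : Out Λ ω z := by
      by_contra hcon
      exact hzS ((h z).2 ⟨hzL, hcon⟩)
    obtain ⟨y, hy, hr⟩ := hzo'
    have hstay : ∀ w, Relation.ReflTransGen (OpenAdj ω) z w →
        w ∉ S ∧ Relation.ReflTransGen (OpenAdj ω') z w := by
      intro w hw
      induction hw with
      | refl => exact ⟨hzS, Relation.ReflTransGen.refl⟩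
      | @tail a b _ hstep ih =>
        refine ⟨fun hb => h.noedge hb ih.1 hstep.symm, ih.2.tail ?_⟩
        exact htr ω ω' heq a b (Or.inl ih.1) hstep
    exact ⟨y, hy, (hstay y hr).2⟩

/-- boundary edges are closed and pivotal -/
theorem IsSep.piv {Λ S : Finset (Fin d → ℤ)} {ω ω' : ZEdge d → Bool} (h : IsSep Λ S ω)
    {x : Fin d → ℤ} {s : Step d} (hx : x ∈ S) (hy : x + stepVec s ∉ S)
    (hc : ConnIn (S : Set (Fin d → ℤ)) ω 0 x) (hω' : ∀ e, ω e = true → ω' e = true)
    (hω's : ω' (zedgeOf x s) = true) :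
    ω (zedgeOf x s) = false ∧ Out Λ ω' 0 ∧ ¬ Out Λ ω 0 := by
  have h0 : (0 : Fin d → ℤ) ∈ S := hc.1
  refine ⟨?_, ?_, ((h 0).1 h0).2⟩
  · by_contra hcon
    rw [Bool.not_eq_false] at hcon
    exact h.noedge hx hy (openAdj_iff.2 ⟨s, rfl, hcon⟩)
  · have h1 : Relation.ReflTransGen (OpenAdj ω') 0 x :=
      reach_mono hω' (rtg_mono (fun a b hab => hab.2.2) hc.2.2)
    have h2 : OpenAdj ω' x (x + stepVec s) := openAdj_iff.2 ⟨s, rfl, hω's⟩
    have h3 : Out Λ ω' (x + stepVec s) := by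
      by_cases hyL : x + stepVec s ∈ Λ
      · have hyo : Out Λ ω (x + stepVec s) := by
          by_contra hcon
          exact hy ((h _).2 ⟨hyL, hcon⟩)
        exact hyo.mono hω'
      · exact ⟨_, hyL, Relation.ReflTransGen.refl⟩
    obtain ⟨w, hw, hr⟩ := h3
    exact ⟨w, hw, (h1.tail h2).trans hr⟩

/-- injectivity of boundary edges -/
theorem zedge_inj {S : Finset (Fin d → ℤ)} {x x' : Fin d → ℤ} {s s' : Step d}
    (hx : x ∈ S) (hx' : x' ∈ S) (hy : x + stepVec s ∉ S) (hy' : x' + stepVec s' ∉ S)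
    (h : zedgeOf x s = zedgeOf x' s') : x = x' ∧ s = s' := by
  obtain ⟨i, b⟩ := s
  obtain ⟨i', b'⟩ := s'
  unfold zedgeOf at h
  rw [Prod.mk.injEq] at h
  obtain ⟨h1, h2⟩ := h
  change i = i' at h2
  subst h2
  cases b <;> cases b'
  · change x + stepVec (i, false) = x' + stepVec (i, false) at h1
    exact ⟨add_right_cancel h1, rfl⟩
  · change x + stepVec (i, false) = x' at h1
    exact absurd (h1 ▸ hx') hy
  · change x = x' + stepVec (i, false) at h1
    exact absurd (h1 ▸ hx) hy'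
  · change x = x' at h1
    exact ⟨h1, rfl⟩

end Comb

end Pool.Agent.Lib_helper9.FPP
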