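import Pool.Agent.Lib_helper9.FPP.Defs

/-! # Block GEO2: tubes -/

set_option autoImplicit false

open scoped BigOperators

namespace Pool.Agent.Lib_helper9.FPP

/-- edges with base point within sup-distance `ρ` of `c` -/
noncomputable def ballE (n : ℕ) (c : Fin 2 → ℤ) (ρ : ℕ) : Finset (TEdge 2 n) :=
  Finset.image (fun q : (Fin 2 → ℤ) × Fin 2 => ((fun α => ((q.1 α : ℤ) : ZMod n)), q.2))
    ((Fintype.piFinset (fun α : Fin 2 => Finset.Icc (c α - ρ) (c α + ρ))) ×ˢ
      (Finset.univ : Finset (Fin 2)))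

theorem mem_ballE {n : ℕ} {c y : Fin 2 → ℤ} {ρ : ℕ} (h : ∀ α, |y α - c α| ≤ (ρ : ℤ)) (i : Fin 2) :
    (((fun α => ((y α : ℤ) : ZMod n)), i) : TEdge 2 n) ∈ ballE n c ρ := by
  classical
  unfold ballE
  refine Finset.mem_image.2 ⟨(y, i), ?_, rfl⟩
  rw [Finset.mem_product]
  refine ⟨?_, Finset.mem_univ _⟩
  rw [Fintype.mem_piFinset]
  intro α
  have := abs_le.1 (h α)
  rw [Finset.mem_Icc]
  constructor
  · show c α - ρ ≤ y α
    omega
  · show y α ≤ c α + ρ
    omega

theorem card_ballE (n : ℕ) (c : Fin 2 → ℤ) (ρ : ℕ) : (ballE n c ρ).card ≤ 2 * (2 * ρ + 1) ^ 2 := by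
  classical
  unfold ballE
  refine le_trans Finset.card_image_le ?_
  rw [Finset.card_product, Fintype.card_piFinset]
  have h1 : ∀ α : Fin 2, (Finset.Icc (c α - (ρ : ℤ)) (c α + ρ)).card = 2 * ρ + 1 := by
    intro α
    rw [Int.card_Icc]
    omega
  rw [Finset.prod_congr rfl (fun α _ => h1 α), Finset.prod_const, Finset.card_univ,
    Fintype.card_fin]
  omega

/-- the tube of a sequence of rounded points and bits -/
noncomputable def tubeOf (n M l N : ℕ) (Y : ℕ → Fin 2 → ℤ) (B : ℕ → Bool) : Finset (TEdge 2 n) :=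
    (Finset.range N).biUnion (fun i =>
      if B i = true then ballE n (fun α => l * Y i α) (2 * M * l)
      else (Finset.range (M + 1)).biUnion (fun j =>
        ballE n (fun α => l * Y i α + ((j : ℤ) * (l * Y (i + 1) α - l * Y i α)) / M) (6 * l)))

theorem tubeOf_congr {n M l N : ℕ} {Y Y' : ℕ → Fin 2 → ℤ} {B B' : ℕ → Bool}
    (hY : ∀ i ≤ N, Y i = Y' i) (hB : ∀ i < N, B i = B' i) :
    tubeOf n M l N Y B = tubeOf n M l N Y' B' := by
  classical
  unfold tubeOf
  refine Finset.biUnion_congr rfl fun i hi => ?_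
  rw [Finset.mem_range] at hi
  rw [hY i hi.le, hY (i + 1) hi, hB i hi]

theorem card_tubeOf {n M l N : ℕ} (hM : 2 ≤ M) (hl : 1 ≤ l) (Y : ℕ → Fin 2 → ℤ) (B : ℕ → Bool)
    (hB : M * ((Finset.range N).filter (fun i => B i = true)).card ≤ N) :
    (tubeOf n M l N Y B).card ≤ 600 * (N * M) * l ^ 2 := by
  classical
  unfold tubeOf
  refine le_trans Finset.card_biUnion_le ?_
  have h1 : ∀ i ∈ Finset.range N, (if B i = true then ballE n (fun α => l * Y i α) (2 * M * l)
      else (Finset.range (M + 1)).biUnion (fun j =>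
        ballE n (fun α => l * Y i α + ((j : ℤ) * (l * Y (i + 1) α - l * Y i α)) / M)
          (6 * l))).card ≤ (if B i = true then 50 * M ^ 2 * l ^ 2 else 0) +
            338 * (M + 1) * l ^ 2 := by
    intro i _
    by_cases h : B i = true
    · rw [if_pos h, if_pos h]
      refine le_trans (card_ballE _ _ _) (le_trans ?_ (Nat.le_add_right _ _))
      have h2 : 2 * (2 * M * l) + 1 ≤ 5 * M * l := by nlinarith [Nat.mul_le_mul hM hl]
      calc 2 * (2 * (2 * M * l) + 1) ^ 2 ≤ 2 * (5 * M * l) ^ 2 :=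
            Nat.mul_le_mul_left _ (Nat.pow_le_pow_left h2 2)
        _ = 50 * M ^ 2 * l ^ 2 := by ring
    · rw [if_neg h, if_neg h, Nat.zero_add]
      refine le_trans Finset.card_biUnion_le (le_trans (Finset.sum_le_sum
        fun j _ => card_ballE _ _ _) ?_)
      rw [Finset.sum_const, Finset.card_range, smul_eq_mul]
      have h2 : 2 * (6 * l) + 1 ≤ 13 * l := by omega
      calc (M + 1) * (2 * (2 * (6 * l) + 1) ^ 2) ≤ (M + 1) * (2 * (13 * l) ^ 2) :=
            Nat.mul_le_mul_left _ (Nat.mul_le_mul_left _ (Nat.pow_le_pow_left h2 2))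
        _ = 338 * (M + 1) * l ^ 2 := by ring
  refine le_trans (Finset.sum_le_sum h1) ?_
  rw [Finset.sum_add_distrib, ← Finset.sum_filter, Finset.sum_const, Finset.sum_const,
    Finset.card_range, smul_eq_mul, smul_eq_mul]
  have h3 : ((Finset.range N).filter (fun i => B i = true)).card * (50 * M ^ 2 * l ^ 2) ≤
      N * (50 * M * l ^ 2) := by
    calc ((Finset.range N).filter (fun i => B i = true)).card * (50 * M ^ 2 * l ^ 2)
        = (M * ((Finset.range N).filter (fun i => B i = true)).card) * (50 * M * l ^ 2) := by ring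
      _ ≤ N * (50 * M * l ^ 2) := Nat.mul_le_mul_right _ hB
  have h4 : 338 * (M + 1) ≤ 550 * M := by omega
  have h5 : N * (338 * (M + 1) * l ^ 2) ≤ N * (550 * M * l ^ 2) :=
    Nat.mul_le_mul_left _ (Nat.mul_le_mul_right _ h4)
  calc _ ≤ N * (50 * M * l ^ 2) + N * (550 * M * l ^ 2) := Nat.add_le_add h3 h5
    _ = 600 * (N * M) * l ^ 2 := by ring

/-- Lipschitz sequences over longer times -/
theorem Lip.dist {u : ℕ} {p : ℕ → Fin 2 → ℤ} (hp : Lip u p) (a b : ℕ) (α : Fin 2) :
    |p (a + b) α - p a α| ≤ (u : ℤ) * b := by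
  induction b with
  | zero => simp
  | succ b ih =>
    have h := hp (a + b) α
    have e : p (a + (b + 1)) α - p a α =
        (p (a + b + 1) α - p (a + b) α) + (p (a + b) α - p a α) := by
      rw [show a + (b + 1) = a + b + 1 from rfl]; ring
    rw [e]
    refine le_trans (abs_add_le _ _) ?_
    push_cast
    linarith

theorem int_floor_bounds (a : ℤ) {l : ℕ} (hl : 1 ≤ l) :
    (l : ℤ) * (a / l) ≤ a ∧ a < (l : ℤ) * (a / l) + l := by
  have hl' : (0 : ℤ) < l := by exact_mod_cast hl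
  constructor
  · exact Int.mul_ediv_self_le hl'.ne'
  · have := Int.lt_mul_ediv_self_add (x := a) hl'
    exact this

/-- differences of floors -/
theorem floor_diff {l : ℕ} (hl : 1 ≤ l) (M : ℕ) (a b : ℤ) (h : |b - a| ≤ (M : ℤ) * l) :
    -((M : ℤ) + 1) ≤ b / (l : ℤ) - a / (l : ℤ) ∧ b / (l : ℤ) - a / (l : ℤ) ≤ (M : ℤ) + 1 := by
  have hl0 : (0 : ℤ) < l := by exact_mod_cast hl
  obtain ⟨a1, a2⟩ := int_floor_bounds a hl
  obtain ⟨b1, b2⟩ := int_floor_bounds b hl
  rw [abs_le] at h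
  generalize a / (l : ℤ) = x at *
  generalize b / (l : ℤ) = y at *
  constructor
  · by_contra hcon
    push Not at hcon
    have h3 : y - x ≤ -((M : ℤ) + 2) := by linarith
    have h4 := mul_le_mul_of_nonneg_left h3 hl0.le
    have h5 : (l : ℤ) * (y - x) = l * y - l * x := by ring
    have h6 : (l : ℤ) * (-((M : ℤ) + 2)) = -(M * l) - 2 * l := by ring
    linarith [h.1, h.2]
  · by_contra hcon
    push Not at hcon
    have h3 : (M : ℤ) + 2 ≤ y - x := by linarith
    have h4 := mul_le_mul_of_nonneg_left h3 hl0.le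
    have h5 : (l : ℤ) * (y - x) = l * y - l * x := by ring
    have h6 : (l : ℤ) * (((M : ℤ) + 2)) = (M * l) + 2 * l := by ring
    linarith [h.1, h.2]

/-- flat case, one coordinate -/
theorem flat_coord {M l j : ℕ} (hM : 2 ≤ M) (hl : 1 ≤ l) (hj : j ≤ M) (a b c : ℤ)
    (h : |(M : ℤ) * (c - a) - j * (b - a)| ≤ (M : ℤ) * l) :
    |c - (l * (a / l) + ((j : ℤ) * (l * (b / l) - l * (a / l))) / M)| ≤ 4 * (l : ℤ) := by
  have hM0 : (0 : ℤ) < M := by exact_mod_cast (by omega : 0 < M)
  have hl0 : (1 : ℤ) ≤ l := by exact_mod_cast hl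
  obtain ⟨a1, a2⟩ := int_floor_bounds a hl
  obtain ⟨b1, b2⟩ := int_floor_bounds b hl
  obtain ⟨f1, f2⟩ := int_floor_bounds ((j : ℤ) * (l * (b / l) - l * (a / l)))
    (show 1 ≤ M by omega)
  set A := (l : ℤ) * (a / l) with hA
  set B := (l : ℤ) * (b / l) with hB
  set Q := ((j : ℤ) * (B - A)) / M with hQ
  have hj0 : (0 : ℤ) ≤ j := Int.natCast_nonneg j
  have hjM : (j : ℤ) ≤ M := by exact_mod_cast hj
  rw [abs_le] at h ⊢
  obtain ⟨h1, h2⟩ := h
  -- j * (b - a - (B - A)) is between - j l and j l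
  have g1 : (j : ℤ) * ((b - B) - (a - A)) ≤ M * l := by
    have : (b - B) - (a - A) ≤ l := by linarith
    calc (j : ℤ) * ((b - B) - (a - A)) ≤ j * l := mul_le_mul_of_nonneg_left this hj0
      _ ≤ M * l := mul_le_mul_of_nonneg_right hjM (by linarith)
  have g2 : -((M : ℤ) * l) ≤ (j : ℤ) * ((b - B) - (a - A)) := by
    have : -(l : ℤ) ≤ (b - B) - (a - A) := by linarith
    calc -((M : ℤ) * l) ≤ -((j : ℤ) * l) := neg_le_neg (mul_le_mul_of_nonneg_right hjM (by linarith))
      _ = j * (-(l : ℤ)) := by ring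
      _ ≤ (j : ℤ) * ((b - B) - (a - A)) := mul_le_mul_of_nonneg_left this hj0
  have e1 : (M : ℤ) * (c - (A + Q)) = (M * (c - a) - j * (b - a)) + M * (a - A) +
      j * ((b - B) - (a - A)) + (j * (B - A) - M * Q) := by ring
  have m1 : (M : ℤ) * (a - A) ≤ M * l := mul_le_mul_of_nonneg_left (by linarith) hM0.le
  have m2 : 0 ≤ (M : ℤ) * (a - A) := mul_nonneg hM0.le (by linarith)
  have m3 : (M : ℤ) ≤ M * l := by nlinarith
  have u1 : (M : ℤ) * (c - (A + Q)) ≤ M * (4 * l) := by
    rw [e1]; linarith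
  have u2 : (M : ℤ) * (-(4 * l)) ≤ (M : ℤ) * (c - (A + Q)) := by
    rw [e1]; linarith
  exact ⟨le_of_mul_le_mul_left u2 hM0, le_of_mul_le_mul_left u1 hM0⟩

open Classical in
/-- GEO2: tubes at scale `k`. -/
theorem geo_tube_proof (M : ℕ) (hM : 2 ≤ M) (u : ℕ) (hu : 1 ≤ u) (n R k : ℕ) [NeZero n]
    (hR : M ^ (k + 1) ∣ R) :
    ∃ (tube : (ℕ → Fin 2 → ℤ) → Finset (TEdge 2 n)) (J : Finset (Finset (TEdge 2 n))),
      (∀ p, Lip u p → ∀ j < R, ∀ y : Fin 2 → ℤ, (∀ α, |y α - p j α| ≤ (u : ℤ)) → ∀ i : Fin 2,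
        (((fun α => ((y α : ℤ) : ZMod n)), i) : TEdge 2 n) ∈ tube p) ∧
      (∀ p, Lip u p → (∀ α, 0 ≤ p 0 α ∧ p 0 α < (n : ℤ)) → FlatScale M R k u p → tube p ∈ J) ∧
      (∀ S ∈ J, S.card ≤ 600 * R * u ^ 2 * M ^ k) ∧
      J.card ≤ (n / (u * M ^ k) + 1) ^ 2 * (2 * (2 * M + 3) ^ 2) ^ (R / M ^ (k + 1)) := by
  obtain ⟨N, hN⟩ := hR
  have hL1 : 1 ≤ M ^ (k + 1) := Nat.one_le_pow _ _ (by omega)
  have hRN : R / M ^ (k + 1) = N := by
    rw [hN, Nat.mul_div_cancel_left _ (by omega)]
  obtain ⟨l, hl⟩ : ∃ l, l = u * M ^ k := ⟨_, rfl⟩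
  have hMk1 : 1 ≤ M ^ k := Nat.one_le_pow _ _ (by omega)
  have hl1 : 1 ≤ l := by rw [hl]; exact Nat.mul_pos hu hMk1
  have hl0 : (0 : ℤ) < l := by exact_mod_cast hl1
  have hlM : u * M ^ (k + 1) = M * l := by rw [hl, pow_succ]; ring
  rw [hRN, ← hl]
  -- decoding
  obtain ⟨decY, hdecY⟩ : ∃ decY : (Fin 2 → ℤ) × (Fin N → (Fin 2 → ℤ) × Bool) → ℕ → Fin 2 → ℤ,
      ∀ c i, decY c i = c.1 + ∑ s ∈ Finset.range i,
        (if h : s < N then (c.2 ⟨s, h⟩).1 else 0) := ⟨_, fun _ _ => rfl⟩
  obtain ⟨decB, hdecB⟩ : ∃ decB : (Fin 2 → ℤ) × (Fin N → (Fin 2 → ℤ) × Bool) → ℕ → Bool,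
      ∀ c i, decB c i = (if h : i < N then (c.2 ⟨i, h⟩).2 else false) := ⟨_, fun _ _ => rfl⟩
  obtain ⟨codes, hcodes⟩ : ∃ codes : Finset ((Fin 2 → ℤ) × (Fin N → (Fin 2 → ℤ) × Bool)),
      codes = (Fintype.piFinset (fun _ : Fin 2 => Finset.Icc (0 : ℤ) ((n / l : ℕ) : ℤ))) ×ˢ
        (Fintype.piFinset (fun _ : Fin N =>
          (Fintype.piFinset (fun _ : Fin 2 => Finset.Icc (-((M : ℤ) + 1)) ((M : ℤ) + 1))) ×ˢ
            (Finset.univ : Finset Bool))) := ⟨_, rfl⟩
  have hcard : codes.card = (n / l + 1) ^ 2 * (2 * (2 * M + 3) ^ 2) ^ N := by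
    rw [hcodes, Finset.card_product, Fintype.card_piFinset, Fintype.card_piFinset]
    have e1 : (Finset.Icc (0 : ℤ) ((n / l : ℕ) : ℤ)).card = n / l + 1 := by
      rw [Int.card_Icc]
      generalize n / l = w
      omega
    have e2 : (Finset.Icc (-((M : ℤ) + 1)) ((M : ℤ) + 1)).card = 2 * M + 3 := by
      rw [Int.card_Icc]; omega
    rw [e1, Finset.prod_const, Finset.card_univ, Fintype.card_fin]
    congr 1
    rw [Finset.prod_const, Finset.card_univ, Fintype.card_fin, Finset.card_product,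
      Fintype.card_piFinset, e2, Finset.prod_const, Finset.card_univ, Fintype.card_fin,
      Finset.card_univ, Fintype.card_bool]
    congr 1
    ring
  refine ⟨fun p => tubeOf n M l N (fun i α => p (i * M ^ (k + 1)) α / l)
      (fun i => decide (NonFlat M k u p i)),
    (codes.filter (fun c => M * ((Finset.range N).filter (fun i => decB c i = true)).card ≤ N)).image
      (fun c => tubeOf n M l N (decY c) (decB c)), ?_, ?_, ?_, ?_⟩
  · -- coverage
    intro p hp s hs y hy i
    obtain ⟨I, hI⟩ : ∃ I, I = s / M ^ (k + 1) := ⟨_, rfl⟩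
    obtain ⟨s', hs'⟩ : ∃ s', s' = s % M ^ (k + 1) := ⟨_, rfl⟩
    have hsI : s = I * M ^ (k + 1) + s' := by
      rw [hI, hs', Nat.mul_comm]; exact (Nat.div_add_mod _ _).symm
    have hs'L : s' < M ^ (k + 1) := by rw [hs']; exact Nat.mod_lt _ (by omega)
    have hIN : I < N := by
      rw [hI]
      exact Nat.div_lt_of_lt_mul (by rw [← hN]; exact hs)
    unfold tubeOf
    rw [Finset.mem_biUnion]
    refine ⟨I, Finset.mem_range.2 hIN, ?_⟩
    by_cases hnf : NonFlat M k u p I
    · rw [if_pos (by simpa using hnf)]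
      apply mem_ballE
      intro α
      have h1 := hp.dist (I * M ^ (k + 1)) s' α
      rw [← hsI] at h1
      have h2 := hy α
      obtain ⟨h3, h4⟩ := int_floor_bounds (p (I * M ^ (k + 1)) α) hl1
      have h5 : (u : ℤ) * s' + u ≤ M * l := by
        have : u * s' + u ≤ M * l := by
          rw [← hlM]
          calc u * s' + u = u * (s' + 1) := by ring
            _ ≤ u * M ^ (k + 1) := Nat.mul_le_mul_left _ hs'L
        exact_mod_cast this
      have h6 : (l : ℤ) ≤ M * l := by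
        have : (1 : ℤ) ≤ M := by exact_mod_cast (by omega : 1 ≤ M)
        nlinarith
      rw [abs_le] at h1 h2 ⊢
      push_cast
      constructor <;> linarith [h1.1, h1.2, h2.1, h2.2]
    · rw [if_neg (by simpa using hnf)]
      obtain ⟨j, hj⟩ : ∃ j, j = s' / M ^ k := ⟨_, rfl⟩
      obtain ⟨s'', hs''⟩ : ∃ s'', s'' = s' % M ^ k := ⟨_, rfl⟩
      have hs'j : s' = j * M ^ k + s'' := by
        rw [hj, hs'', Nat.mul_comm]; exact (Nat.div_add_mod _ _).symm
      have hs''L : s'' < M ^ k := by rw [hs'']; exact Nat.mod_lt _ (by omega)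
      have hjM : j < M := by
        rw [hj]
        exact Nat.div_lt_of_lt_mul (by rw [← pow_succ]; exact hs'L)
      rw [Finset.mem_biUnion]
      refine ⟨j, Finset.mem_range.2 (by omega), ?_⟩
      apply mem_ballE
      intro α
      unfold NonFlat at hnf
      push Not at hnf
      have h1 := hnf j hjM.le α
      have h2 := hp.dist (I * M ^ (k + 1) + j * M ^ k) s'' α
      have e1 : I * M ^ (k + 1) + j * M ^ k + s'' = s := by rw [hsI, hs'j]; ring
      rw [e1] at h2
      have h3 := hy α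
      have h4 := flat_coord (M := M) (l := l) (j := j) hM hl1 hjM.le
        (p (I * M ^ (k + 1)) α) (p ((I + 1) * M ^ (k + 1)) α) (p (I * M ^ (k + 1) + j * M ^ k) α)
        (by
          refine le_trans h1 ?_
          rw [hl]; push_cast; exact le_refl _)
      have h5 : (u : ℤ) * s'' + u ≤ l := by
        have : u * s'' + u ≤ l := by
          rw [hl]
          calc u * s'' + u = u * (s'' + 1) := by ring
            _ ≤ u * M ^ k := Nat.mul_le_mul_left _ hs''L
        exact_mod_cast this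
      rw [abs_le] at h2 h3 h4 ⊢
      push_cast
      constructor <;> linarith [h2.1, h2.2, h3.1, h3.2, h4.1, h4.2]
  · -- membership in J
    intro p hp hp0 hflat
    obtain ⟨Y, hY⟩ : ∃ Y : ℕ → Fin 2 → ℤ, ∀ i, Y i = fun α => p (i * M ^ (k + 1)) α / l :=
      ⟨_, fun _ => rfl⟩
    rw [Finset.mem_image]
    refine ⟨(Y 0, fun i => (Y (i + 1) - Y i, decide (NonFlat M k u p i))), ?_, ?_⟩
    · rw [Finset.mem_filter]
      constructor
      · rw [hcodes, Finset.mem_product]
        constructor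
        · rw [Fintype.mem_piFinset]
          intro α
          show Y 0 α ∈ _
          rw [Finset.mem_Icc, hY]
          simp only [Nat.zero_mul]
          constructor
          · exact Int.ediv_nonneg (hp0 α).1 hl0.le
          · have h1 : p 0 α ≤ n := (hp0 α).2.le
            have h2 := Int.ediv_le_ediv hl0 h1
            exact h2
        · rw [Fintype.mem_piFinset]
          intro i
          rw [Finset.mem_product]
          refine ⟨?_, Finset.mem_univ _⟩
          rw [Fintype.mem_piFinset]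
          intro α
          show (Y (i + 1) - Y i) α ∈ _
          rw [Pi.sub_apply, Finset.mem_Icc, hY, hY]
          have h1 := hp.dist (i * M ^ (k + 1)) (M ^ (k + 1)) α
          have e1 : (i : ℕ) * M ^ (k + 1) + M ^ (k + 1) = ((i : ℕ) + 1) * M ^ (k + 1) := by ring
          rw [e1] at h1
          have h2 : (u : ℤ) * ((M ^ (k + 1) : ℕ) : ℤ) = M * l := by exact_mod_cast hlM
          rw [h2] at h1
          exact floor_diff hl1 M _ _ h1
      · unfold FlatScale at hflat
        rw [hRN] at hflat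
        refine le_trans (le_of_eq ?_) hflat
        congr 2
        refine Finset.filter_congr fun i hi => ?_
        rw [Finset.mem_range] at hi
        rw [hdecB, dif_pos hi]
        simp
    · apply tubeOf_congr
      · intro i hi
        rw [hdecY]
        have e1 : ∑ s ∈ Finset.range i, (if h : s < N then
            ((fun i : Fin N => (Y (i + 1) - Y i, decide (NonFlat M k u p i))) ⟨s, h⟩).1 else 0) =
            ∑ s ∈ Finset.range i, (Y (s + 1) - Y s) := by
          refine Finset.sum_congr rfl fun s hs => ?_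
          rw [Finset.mem_range] at hs
          rw [dif_pos (by omega)]
        show Y 0 + ∑ s ∈ Finset.range i, (if h : s < N then
            ((fun i : Fin N => (Y (i + 1) - Y i, decide (NonFlat M k u p i))) ⟨s, h⟩).1 else 0) = _
        rw [e1, Finset.sum_range_sub, add_sub_cancel, hY]
      · intro i hi
        rw [hdecB, dif_pos hi]
  · -- sizes
    intro S hS
    obtain ⟨c, hc, rfl⟩ := Finset.mem_image.1 hS
    rw [Finset.mem_filter] at hc
    refine le_trans (card_tubeOf hM hl1 _ _ hc.2) (le_of_eq ?_)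
    rw [hN, hl, pow_succ]
    ring
  · refine le_trans Finset.card_image_le (le_trans (Finset.card_filter_le _ _) ?_)
    rw [hcard]

end Pool.Agent.Lib_helper9.FPP
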